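import Mathlib
import Pool.Agent.W965.LU.Stms

set_option autoImplicit false
set_option linter.unusedVariables false

namespace Pool.Agent.W930.LU.Tow

open Pool.Agent.W965.LU

lemma lam_exp (lam z : ℝ) (hl : 1 ≤ lam) (hz : 1 ≤ z) : lam * Real.exp z ≤ Real.exp (lam * z) := by
  have e : Real.exp (lam * z) = Real.exp z * Real.exp ((lam - 1) * z) := by
    rw [← Real.exp_add]; congr 1; ring
  rw [e, mul_comm lam]
  have h1 := Real.add_one_le_exp ((lam - 1) * z)
  have h2 : lam ≤ Real.exp ((lam - 1) * z) := by nlinarith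
  exact mul_le_mul_of_nonneg_left h2 (Real.exp_pos _).le

lemma iter_exp (lam y : ℝ) (hl : 1 ≤ lam) (hy : 1 ≤ y) :
    ∀ j : ℕ, 1 ≤ (Real.exp)^[j] y ∧ lam * (Real.exp)^[j] y ≤ (Real.exp)^[j] (lam * y) := by
  intro j
  induction j with
  | zero => exact ⟨hy, le_rfl⟩
  | succ j ih =>
    obtain ⟨h1, h2⟩ := ih
    rw [Function.iterate_succ_apply', Function.iterate_succ_apply']
    refine ⟨Real.one_le_exp (by linarith), ?_⟩
    exact (lam_exp lam _ hl h1).trans (Real.exp_le_exp.2 h2)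

lemma B_pos : ∀ (s k : ℕ), 1 ≤ k → 1 ≤ B s k := by
  intro s
  induction s with
  | zero => intro k hk; simpa [B] using hk
  | succ s _ => intro k hk; rw [B]; exact Nat.one_le_two_pow

lemma two_pow_le (n : ℕ) : (2 : ℝ) ^ n ≤ Real.exp n := by
  have h := Real.exp_one_gt_d9
  calc (2 : ℝ) ^ n ≤ (Real.exp 1) ^ n := by
        gcongr
        linarith
    _ = Real.exp n := by rw [← Real.exp_nat_mul, mul_one]

lemma key (s0 : ℕ) : ∀ s : ℕ, ∃ C : ℝ, 1 ≤ C ∧ ∀ u : ℕ, 1 ≤ u →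
    (B s (2 ^ u + s0) : ℝ) ≤ (Real.exp)^[s + 1] (C * u) := by
  intro s
  induction s with
  | zero =>
    refine ⟨1 + s0, by linarith [(Nat.cast_nonneg s0 : (0 : ℝ) ≤ s0)], ?_⟩
    intro u hu
    have hu' : (1 : ℝ) ≤ u := by exact_mod_cast hu
    have hs0 : (0 : ℝ) ≤ s0 := Nat.cast_nonneg s0
    rw [zero_add, Function.iterate_one]
    have hB : (B 0 (2 ^ u + s0) : ℝ) = 2 ^ u + s0 := by
      rw [B]; push_cast; ring
    rw [hB]
    have h1 := two_pow_le u
    have h2 : (1 : ℝ) + s0 ≤ Real.exp s0 := by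
      have := Real.add_one_le_exp (s0 : ℝ)
      linarith
    have h3 : (1 : ℝ) ≤ Real.exp u := Real.one_le_exp (by linarith)
    calc (2 : ℝ) ^ u + s0 ≤ Real.exp u * (1 + s0) := by nlinarith
      _ ≤ Real.exp u * Real.exp s0 := mul_le_mul_of_nonneg_left h2 (Real.exp_pos _).le
      _ = Real.exp (u + s0) := (Real.exp_add _ _).symm
      _ ≤ Real.exp ((1 + s0) * u) := Real.exp_le_exp.2 (by nlinarith)
  | succ s ih =>
    obtain ⟨C, hC, h⟩ := ih
    have hs : (0 : ℝ) ≤ s := Nat.cast_nonneg s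
    refine ⟨(s + 3) * C, by nlinarith, ?_⟩
    intro u hu
    have hu' : (1 : ℝ) ≤ u := by exact_mod_cast hu
    have hCu : 1 ≤ C * u := by nlinarith
    have hM1 : 1 ≤ B s (2 ^ u + s0) := B_pos s _ (le_add_right Nat.one_le_two_pow)
    have hE := h u hu
    rw [Function.iterate_succ_apply'] at hE
    obtain ⟨hz1, hz2⟩ := iter_exp (s + 3) (C * u) (by linarith) hCu s
    set M := B s (2 ^ u + s0) with hM
    set z := (Real.exp)^[s] (C * u) with hz
    rw [Function.iterate_succ_apply', Function.iterate_succ_apply']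
    have hB : (B (s + 1) (2 ^ u + s0) : ℝ) = 2 ^ (M * (1 + M ^ (s + 1))) := by
      rw [B]; push_cast; rfl
    rw [hB]
    refine (two_pow_le _).trans (Real.exp_le_exp.2 ?_)
    have hMr : (1 : ℝ) ≤ M := by exact_mod_cast hM1
    push_cast
    have h1 : (M : ℝ) * (1 + M ^ (s + 1)) ≤ 2 * (M : ℝ) ^ (s + 2) := by
      have h2 : (M : ℝ) ≤ (M : ℝ) ^ (s + 2) := by
        calc (M : ℝ) = (M : ℝ) ^ 1 := (pow_one _).symm
          _ ≤ _ := pow_le_pow_right₀ hMr (by omega)
      have h3 : (M : ℝ) * M ^ (s + 1) = (M : ℝ) ^ (s + 2) := by ring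
      nlinarith
    refine h1.trans ?_
    have h4 : (M : ℝ) ^ (s + 2) ≤ Real.exp ((s + 2) * z) := by
      calc (M : ℝ) ^ (s + 2) ≤ (Real.exp z) ^ (s + 2) := by gcongr
        _ = Real.exp ((s + 2) * z) := by
          rw [← Real.exp_nat_mul]; push_cast; ring_nf
    have h5 : (2 : ℝ) ≤ Real.exp 1 := by linarith [Real.exp_one_gt_d9]
    calc 2 * (M : ℝ) ^ (s + 2) ≤ Real.exp 1 * Real.exp ((s + 2) * z) := by
          exact mul_le_mul h5 h4 (by positivity) (Real.exp_pos _).le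
      _ = Real.exp (1 + (s + 2) * z) := (Real.exp_add _ _).symm
      _ ≤ Real.exp ((s + 3) * z) := Real.exp_le_exp.2 (by linarith)
      _ ≤ Real.exp ((Real.exp)^[s] ((s + 3) * (C * u))) := Real.exp_le_exp.2 hz2
      _ = _ := by rw [mul_assoc]

theorem main : S_TOW := fun s => key s s

end Pool.Agent.W930.LU.Tow
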